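import Pool.Agent.W_MP_3a8340_co.All
import Pool.Agent.W_MP_3a8340_co.FinalZero
import Pool.Agent.W_MP_3a8340_co.FinalPos

/-!
# Precolouring extension of distance-2 matchings in `G □ K_{n,m}`

For every finite bipartite graph `G` and all `n ≥ m ≥ 1`, every precolouring of a distance-2
matching of `G □ K_{n,m}` with `Δ(G) + n` colours extends to a proper edge colouring of
`G □ K_{n,m}` with `Δ(G) + n` colours.
-/

namespace Pool.Agent.Results.MP_3a8340_co.DistanceTwo

/-- `M` is a set of edges of `H` any two of which are at distance at least `2`: every end of one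
is at distance at least `2` from every end of the other. -/
def IsDistanceTwoMatching {W : Type*} (H : SimpleGraph W) (M : Set (Sym2 W)) : Prop :=
  M ⊆ H.edgeSet ∧ ∀ e ∈ M, ∀ f ∈ M, e ≠ f → ∀ x ∈ e, ∀ y ∈ f, 2 ≤ H.edist x y

/-- The precolouring `φ` of the edges in `M` extends to a proper edge colouring of `H` with `k`
colours. -/
def Extendable {W : Type*} (H : SimpleGraph W) {k : ℕ} {M : Set (Sym2 W)} (φ : M → Fin k) :
    Prop :=
  ∃ ψ : Sym2 W → Fin k,
    (∀ e ∈ H.edgeSet, ∀ f ∈ H.edgeSet, e ≠ f → (∃ x, x ∈ e ∧ x ∈ f) → ψ e ≠ ψ f) ∧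
    ∀ e : M, ψ e = φ e

theorem result {V : Type*} [Fintype V] (G : SimpleGraph V) [DecidableRel G.Adj]
    (hG : G.IsBipartite) (n m : ℕ) (hm : 1 ≤ m) (hmn : m ≤ n)
    (M : Set (Sym2 (V × (Fin n ⊕ Fin m))))
    (hM : IsDistanceTwoMatching (G □ completeBipartiteGraph (Fin n) (Fin m)) M)
    (φ : M → Fin (G.maxDegree + n)) :
    Extendable (G □ completeBipartiteGraph (Fin n) (Fin m)) φ := by
  classical
  obtain ⟨C⟩ := hG
  have hn : 1 ≤ n := hm.trans hmn
  have hside : ∀ v w, G.Adj v w → decide (C v = 0) ≠ decide (C w = 0) := by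
    intro v w h
    have hne := C.valid h
    generalize C v = a at *
    generalize C w = b at *
    revert a b
    decide
  have hdeg : ∀ v, G.degree v ≤ G.maxDegree := fun v => G.degree_le_maxDegree v
  let φ' : Sym2 (V × (Fin n ⊕ Fin m)) → Fin (G.maxDegree + n) := fun e =>
    if h : e ∈ M then φ ⟨e, h⟩ else ⟨0, by omega⟩
  have hφ : ∀ e : M, φ' e = φ e := by
    intro e
    simp only [φ']
    rw [dif_pos e.2]
  by_cases h0 : G.maxDegree = 0
  · have hGE : ∀ v w, ¬ G.Adj v w := by
      intro v w h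
      have h1 : 0 < G.degree v := by
        rw [SimpleGraph.degree_pos_iff_exists_adj]
        exact ⟨w, h⟩
      have := hdeg v
      omega
    obtain ⟨ψ, h1, h2⟩ := W3a.final_zero G hGE n m hm hmn M hM.1 hM.2
      (fun e => Fin.cast (by omega) (φ' e))
    refine ⟨fun e => Fin.cast (by omega) (ψ e), ?_, ?_⟩
    · intro e he f hf hne hx h
      exact h1 e he f hf hne hx (by simpa [Fin.ext_iff] using h)
    · intro e
      have := h2 e e.2
      simp only [this]
      rw [← hφ e]
      simp
  · obtain ⟨ψ, h1, h2⟩ := W3a.final_pos G (fun v => decide (C v = 0)) hside G.maxDegree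
      (by omega) hdeg n m hm hmn (W3a.coreN_all n hn) M hM.1 hM.2 φ'
    exact ⟨ψ, h1, fun e => (h2 e e.2).trans (hφ e)⟩

end Pool.Agent.Results.MP_3a8340_co.DistanceTwo
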